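import Pool.Agent.Work.MP_e5a0e3_pr.D4.Key

open Pool.Agent.Work.MP_e5a0e3_pr

/-- The assertion of Q1 holds in dimension `d ≥ 1` exactly when `d ≤ 3`. -/
theorem Pool.Agent.Results.MP_e5a0e3_pr.DimensionThree.result :
    ∀ d : ℕ, 1 ≤ d → ((∀ k : ℕ, 1 ≤ k → k ≤ d → theta k d = 0) ↔ d ≤ 3) := fun d hd => by
  refine ⟨fun h => by_contra fun h3 => ?_, fun h3 k _ hk => D4.theta_small hd h3 hk⟩
  have h0 := h d hd le_rfl
  rcases (by omega : d = 4 ∨ 5 ≤ d) with rfl | h5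
  · exact D4.theta44.ne' h0
  · refine (Hedge.theta_pos4 (by omega) (by omega) ?_).ne' h0
    rw [mul_comm]
    exact Nat.mul_le_mul_left _ (by omega)
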